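import Pool.Agent.N242.NT.Stm

/-!
# Project NT (helper242), part HIL: spaces isomorphic to a Hilbert space have the property `KMP`
(helper901)
-/

set_option autoImplicit false

open Metric Set Filter Topology

namespace Pool.Agent.N901.NT.HIL

open Pool.Agent.N242.NT
open scoped InnerProductSpace

universe u

/-- a real Hilbert space is reflexive -/
lemma refl (H : Type u) [NormedAddCommGroup H] [InnerProductSpace ℝ H] [CompleteSpace H] :
    Function.Surjective (NormedSpace.inclusionInDoubleDual ℝ H) := by
  intro Φ
  let ψl : H →ₗ[ℝ] ℝ :=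
    { toFun := fun y => Φ (InnerProductSpace.toDual ℝ H y)
      map_add' := fun a b => by rw [map_add, map_add]
      map_smul' := fun c a => by
        rw [LinearIsometryEquiv.map_smulₛₗ]
        simp }
  let ψ : H →L[ℝ] ℝ := ψl.mkContinuous ‖Φ‖ (fun y => by
    refine (Φ.le_opNorm _).trans ?_
    rw [LinearIsometryEquiv.norm_map])
  refine ⟨(InnerProductSpace.toDual ℝ H).symm ψ, ?_⟩
  ext f
  rw [NormedSpace.dual_def]
  obtain ⟨y, rfl⟩ := (InnerProductSpace.toDual ℝ H).surjective f
  rw [InnerProductSpace.toDual_apply_apply, real_inner_comm, InnerProductSpace.toDual_symm_apply]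
  rfl

theorem t_HIL (h : S_REF.{u}) : S_HIL.{u} := by
  intro X H _ _ _ _ _ e
  have hH : KMP H := h H (refl H)
  intro K hc hb hv hne
  have h1 : ((e '' K).extremePoints ℝ).Nonempty := by
    refine hH (e '' K) ?_ ?_ ?_ (hne.image e)
    · exact e.toHomeomorph.isClosedMap K hc
    · exact e.lipschitz.isBounded_image hb
    · exact hv.linear_image (e : X →ₗ[ℝ] H)
  rw [← image_extremePoints] at h1
  exact Set.image_nonempty.mp h1

end Pool.Agent.N901.NT.HIL
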